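import Pool.Agent.Helper12.GM.LibF

set_option autoImplicit false

open scoped ENNReal UpperHalfPlane MatrixGroups Topology
open UpperHalfPlane Real Filter

namespace Pool.Agent.Helper12.GM

/-- there is a nontrivial element -/
theorem nf_nontriv {Γ : Type} [Group Γ] (X : Fuchs Γ) : ∃ g : Γ, g ≠ 1 := by
  by_contra hno
  push Not at hno
  obtain ⟨R, hR⟩ := X.cocpt
  have h1 : ∀ z : ℍ, dist z (I : ℍ) ≤ R := by
    intro z
    obtain ⟨g, hg⟩ := hR z
    rw [hno g, X.act_one] at hg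
    exact hg
  let z : ℍ := ⟨⟨0, Real.exp (R + 1)⟩, Real.exp_pos _⟩
  have h2 := h1 z
  have h3 : dist z (I : ℍ) = dist (Real.log z.im) (Real.log (I : ℍ).im) :=
    UpperHalfPlane.dist_of_re_eq rfl
  have h4 : z.im = Real.exp (R + 1) := rfl
  rw [h3, h4, Real.log_exp, UpperHalfPlane.I_im, Real.log_one, Real.dist_eq, sub_zero] at h2
  have h5 := le_abs_self (R + 1)
  linarith

/-- conjugation by a matrix, changes of sign -/
theorem nf_conj {Γ : Type} [Group Γ] (X : Fuchs Γ) (P : SL(2, ℝ)) (M' : Γ → SL(2, ℝ))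
    (h : ∀ g, M' g = P⁻¹ * X.M g * P ∨ M' g = -(P⁻¹ * X.M g * P)) :
    (∀ g, |(M' g).1.trace| = |(X.M g).1.trace|) ∧ ∃ Y : Fuchs Γ, Y.M = M' := by
  have htr : ∀ g, |(M' g).1.trace| = |(X.M g).1.trace| := by
    intro g
    have h1 : (P⁻¹ * X.M g * P).1.trace = (X.M g).1.trace := by
      have h2 : (P⁻¹ * X.M g * P).1 = (P⁻¹).1 * (X.M g).1 * P.1 := rfl
      rw [h2, Matrix.trace_mul_cycle]
      have h3 : P.1 * (P⁻¹).1 = 1 := by
        have : (P * P⁻¹).1 = (1 : SL(2, ℝ)).1 := by rw [mul_inv_cancel]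
        exact this
      rw [h3, Matrix.one_mul]
    rcases h g with h2 | h2
    · rw [h2, h1]
    · rw [h2, ← h1]
      have h3 : (-(P⁻¹ * X.M g * P)).1 = -((P⁻¹ * X.M g * P).1) := rfl
      rw [h3, Matrix.trace_neg, abs_neg]
  have hact : ∀ g (z : ℍ), M' g • z = P⁻¹ • X.M g • P • z := by
    intro g z
    rcases h g with h1 | h1
    · rw [h1, mul_smul, mul_smul]
    · rw [h1, neg_smul_H, mul_smul, mul_smul]
  have hd : ∀ g (w : ℍ), dist w (M' g • (I : ℍ)) = dist (P • w) (X.M g • P • (I : ℍ)) := by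
    intro g w
    rw [hact, ← dist_smul_H P, smul_inv_smul]
  have hD : ∀ g, dist (X.M g • P • (I : ℍ)) (X.M g • (I : ℍ)) = dist (P • (I : ℍ)) I := by
    intro g
    rw [dist_smul_H]
  refine ⟨htr, ⟨M', ?_, ?_, ?_, ?_⟩, rfl⟩
  · intro g k
    have e : ∀ A B : SL(2, ℝ), P⁻¹ * (A * B) * P = (P⁻¹ * A * P) * (P⁻¹ * B * P) := by
      intro A B; group
    have e2 : P⁻¹ * (-(X.M g * X.M k)) * P = -((P⁻¹ * X.M g * P) * (P⁻¹ * X.M k * P)) := by
      rw [mul_neg, neg_mul, e]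
    rcases h (g * k) with h1 | h1 <;> rcases h g with h2 | h2 <;> rcases h k with h3 | h3 <;>
      rcases X.mul' g k with h4 | h4 <;> rw [h1, h2, h3, h4] <;>
      (first | rw [e2] | rw [e]) <;> simp
  · intro r
    refine (X.disc (r + 2 * dist (P • (I : ℍ)) I)).subset ?_
    intro g hg
    have hg' : dist (I : ℍ) (M' g • (I : ℍ)) ≤ r := hg
    rw [hd] at hg'
    show dist (I : ℍ) (X.M g • (I : ℍ)) ≤ _
    have h1 := dist_triangle (I : ℍ) (P • (I : ℍ)) (X.M g • (I : ℍ))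
    have h2 := dist_triangle (P • (I : ℍ)) (X.M g • P • (I : ℍ)) (X.M g • (I : ℍ))
    rw [hD] at h2
    rw [dist_comm (I : ℍ) (P • (I : ℍ))] at h1
    linarith
  · obtain ⟨R, hR⟩ := X.cocpt
    refine ⟨R + dist (P • (I : ℍ)) I, ?_⟩
    intro z
    obtain ⟨g, hg⟩ := hR (P • z)
    refine ⟨g, ?_⟩
    rw [hd]
    have h1 := dist_triangle (P • z) (X.M g • (I : ℍ)) (X.M g • P • (I : ℍ))
    rw [dist_comm (X.M g • (I : ℍ)), hD] at h1
    linarith
  · intro g hg
    rw [htr]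
    exact X.hyp g hg

/-- diagonalisation -/
theorem nf_diag (B : SL(2, ℝ)) (hB : 2 < B.1.trace) :
    ∃ (P : SL(2, ℝ)) (l : ℝ), 1 < l ∧ (P⁻¹ * B * P).1 = !![l, 0; 0, l⁻¹] := by
  obtain ⟨s, hs0, hs⟩ : ∃ s : ℝ, 0 < s ∧ s ^ 2 = B.1.trace ^ 2 - 4 :=
    ⟨√(B.1.trace ^ 2 - 4), Real.sqrt_pos.2 (by nlinarith), Real.sq_sqrt (by nlinarith)⟩
  obtain ⟨t, ht⟩ : ∃ t, t = B.1.trace := ⟨_, rfl⟩
  rw [← ht] at hB hs
  have hdet := B.det_coe
  rw [Matrix.det_fin_two] at hdet
  rw [Matrix.trace_fin_two] at ht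
  set a := B.1 0 0
  set b := B.1 0 1
  set c := B.1 1 0
  set d := B.1 1 1
  obtain ⟨l, hl⟩ : ∃ l, l = (t + s) / 2 := ⟨_, rfl⟩
  obtain ⟨m, hm⟩ : ∃ m, m = (t - s) / 2 := ⟨_, rfl⟩
  have hlm : l * m = 1 := by rw [hl, hm]; nlinarith
  have hsum : l + m = t := by rw [hl, hm]; ring
  have hl1 : 1 < l := by rw [hl]; linarith
  have hminv : m = l⁻¹ := eq_inv_of_mul_eq_one_right hlm
  have hne : l - m ≠ 0 := by rw [hl, hm]; intro h; linarith
  -- eigenvectors
  have hev : ∀ x : ℝ, x ^ 2 - t * x + 1 = 0 → ∃ p q : ℝ, (p ≠ 0 ∨ q ≠ 0) ∧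
      a * p + b * q = x * p ∧ c * p + d * q = x * q := by
    intro x hx
    by_cases hb : b = 0
    · by_cases hc : d = x
      · refine ⟨0, 1, Or.inr one_ne_zero, by rw [hb]; ring, by rw [hc]; ring⟩
      · refine ⟨x - d, c, Or.inl (sub_ne_zero.2 (Ne.symm hc)), ?_, by ring⟩
        rw [hb]
        rw [hb] at hdet
        linear_combination (-1 : ℝ) * hx + (-1 : ℝ) * x * ht - hdet
    · refine ⟨b, x - a, Or.inl hb, by ring, ?_⟩
      linear_combination (-1 : ℝ) * hx + (-1 : ℝ) * x * ht - hdet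
  obtain ⟨p, q, hpq, h1, h2⟩ := hev l (by nlinarith)
  obtain ⟨p', q', hpq', h1', h2'⟩ := hev m (by nlinarith)
  have hD : p * q' - q * p' ≠ 0 := by
    intro h0
    have e1 : p * q' = 0 := by
      have : (l - m) * (p * q') = 0 := by
        linear_combination (-1 : ℝ) * q' * h1 + q * h1' + (a - m) * h0
      exact (mul_eq_zero.1 this).resolve_left hne
    have e2 : q * p' = 0 := by linarith
    have e3 : p * p' = 0 := by
      have : (l - m) * (p * p') = 0 := by
        linear_combination (-1 : ℝ) * p' * h1 + p * h1' + b * e2 - b * e1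
      exact (mul_eq_zero.1 this).resolve_left hne
    have e4 : q * q' = 0 := by
      have : (l - m) * (q * q') = 0 := by
        linear_combination (-1 : ℝ) * q' * h2 + q * h2' + c * e1 - c * e2
      exact (mul_eq_zero.1 this).resolve_left hne
    rcases hpq with h | h
    · have f1 := (mul_eq_zero.1 e1).resolve_left h
      have f2 := (mul_eq_zero.1 e3).resolve_left h
      rcases hpq' with h' | h'
      · exact h' f2
      · exact h' f1
    · have f1 := (mul_eq_zero.1 e4).resolve_left h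
      have f2 := (mul_eq_zero.1 e2).resolve_left h
      rcases hpq' with h' | h'
      · exact h' f2
      · exact h' f1
  let D := p * q' - q * p'
  let P : SL(2, ℝ) := ⟨!![p / D, p'; q / D, q'], by
    rw [Matrix.det_fin_two_of]
    show p / D * q' - p' * (q / D) = 1
    have hD' : D ≠ 0 := hD
    field_simp
    show p * q' - p' * q = p * q' - q * p'
    ring⟩
  refine ⟨P, l, hl1, ?_⟩
  have hBe : B.1 = !![a, b; c, d] := by
    rw [Matrix.eta_fin_two B.1]
  obtain ⟨E, hE⟩ : ∃ E : SL(2, ℝ), E.1 = !![l, 0; 0, l⁻¹] := ⟨⟨!![l, 0; 0, l⁻¹], by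
      rw [Matrix.det_fin_two_of, ← hminv]; linarith⟩, rfl⟩
  have key : B * P = P * E := by
    apply Subtype.ext
    show B.1 * !![p / D, p'; q / D, q'] = !![p / D, p'; q / D, q'] * E.1
    rw [hE, hBe, Matrix.mul_fin_two, Matrix.mul_fin_two, ← hminv]
    congr 1
    ext i j
    fin_cases i <;> fin_cases j <;> simp
    · linear_combination h1 / D
    · linear_combination h1'
    · linear_combination h2 / D
    · linear_combination h2'
  rw [mul_assoc, key, ← mul_assoc, inv_mul_cancel, one_mul, hE]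

theorem st_NF : ST_NF := by
  classical
  intro Γ _ X
  obtain ⟨g₀, hg₀⟩ := nf_nontriv X
  have hh := X.hyp g₀ hg₀
  obtain ⟨B, hBA, hB⟩ : ∃ B : SL(2, ℝ), (B = X.M g₀ ∨ B = -X.M g₀) ∧ 2 < B.1.trace := by
    rcases le_total 0 (X.M g₀).1.trace with h | h
    · rw [abs_of_nonneg h] at hh
      exact ⟨_, Or.inl rfl, hh⟩
    · rw [abs_of_nonpos h] at hh
      refine ⟨_, Or.inr rfl, ?_⟩
      have h3 : (-(X.M g₀)).1 = -((X.M g₀).1) := rfl
      rw [h3, Matrix.trace_neg]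
      exact hh
  obtain ⟨P, l, hl, hP⟩ := nf_diag B hB
  obtain ⟨htr, Y, hY⟩ := nf_conj X P
    (fun g => if g = g₀ then P⁻¹ * B * P else P⁻¹ * X.M g * P) (by
      intro g
      by_cases hg : g = g₀
      · subst hg
        rw [if_pos rfl]
        rcases hBA with h | h
        · left; rw [h]
        · right; rw [h, mul_neg, neg_mul]
      · rw [if_neg hg]
        exact Or.inl rfl)
  refine ⟨{ toFuchs := Y, c := g₀, lam := l, one_lt := hl, Mc := ?_ }, ?_⟩
  · rw [hY]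
    simp only [if_true]
    exact hP
  · intro g
    show |(Y.M g).1.trace| = _
    rw [hY]
    exact htr g

end Pool.Agent.Helper12.GM
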